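import Mathlib
import Pool.Agent.K7.H71.Hall.Upper
import Pool.Agent.K7.H71.Hall.Lower

/-!
Hall's conjecture for the integral points of Mordell curves which are divisible by `2 ^ j` in the
Mordell-Weil group over `ℚ`, with nearly optimal exponents for every `j ≥ 3`.
-/

set_option autoImplicit false

namespace Pool.Agent.Results.MP_f2148a_nt.HighlyDivisiblePoints

/-- The curve `y ^ 2 = x ^ 3 + k` over `ℚ`. -/
def Mordell (k : ℤ) : WeierstrassCurve.Affine ℚ := ⟨0, 0, 0, 0, k⟩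

/-- The integers `x, y` are the coordinates of a point of `y ^ 2 = x ^ 3 + k` which is equal to
`2 ^ j • Q` for a rational point `Q` of the curve, with respect to the group law of the curve. -/
def IsMultiple (j : ℕ) (k x y : ℤ) : Prop :=
  ∃ (Q : (Mordell k).Point) (h : (Mordell k).Nonsingular (x : ℚ) (y : ℚ)),
    (2 : ℕ) ^ j • Q = WeierstrassCurve.Affine.Point.some (x : ℚ) (y : ℚ) h

/-- For every `j ≥ 3` and `ε > 0` there is a constant `C` such that every integral point `(x, y)` in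
`2 ^ j E_k (ℚ)`, `E_k : y ^ 2 = x ^ 3 + k`, `k ≠ 0`, satisfies
`|x| ≤ C |k| ^ (1 / 3 + 4 / (4 ^ j - 12) + ε)` and `|y| ≤ C |k| ^ (1 / 2 + 6 / (4 ^ j - 12) + ε)`.
On the other hand, for every `j ≥ 2` there are a constant `c > 0` and integral points `(x, y)` in
`2 ^ j E_k (ℚ)` with arbitrarily large `k > 0` and
`|x| ≥ c k ^ (1 / 3 + 4 / (4 ^ j - 10))`, `|y| ≥ c k ^ (1 / 2 + 6 / (4 ^ j - 10))`. -/
theorem result :
    (∀ j : ℕ, 3 ≤ j → ∀ ε : ℝ, 0 < ε → ∃ C : ℝ, ∀ k x y : ℤ, k ≠ 0 → IsMultiple j k x y →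
      |(x : ℝ)| ≤ C * |(k : ℝ)| ^ (1 / 3 + 4 / ((4 : ℝ) ^ j - 12) + ε) ∧
      |(y : ℝ)| ≤ C * |(k : ℝ)| ^ (1 / 2 + 6 / ((4 : ℝ) ^ j - 12) + ε)) ∧
    (∀ j : ℕ, 2 ≤ j → ∃ c : ℝ, 0 < c ∧ ∀ N : ℝ, ∃ k x y : ℤ, N ≤ k ∧ 0 < k ∧ IsMultiple j k x y ∧
      c * (k : ℝ) ^ (1 / 3 + 4 / ((4 : ℝ) ^ j - 10)) ≤ |(x : ℝ)| ∧
      c * (k : ℝ) ^ (1 / 2 + 6 / ((4 : ℝ) ^ j - 10)) ≤ |(y : ℝ)|) := by
  constructor
  · intro j hj ε hε
    obtain ⟨C, hC, h⟩ := Pool.Agent.K7.H71.Hall.x_bound j hj (2 * ε / 3) (by positivity)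
    refine ⟨C ^ 2 + 1, ?_⟩
    rintro k x y hk ⟨Q, hns, hQ⟩
    obtain ⟨a, ha1, ha2⟩ := Pool.Agent.K7.H71.Hall.chain_down k j Q x y hns hQ
    have hx := h k x a hk ha1 ha2
    have heq := Pool.Agent.K7.H71.Hall.Cv_eq k hns
    have heqR : (y : ℝ) ^ 2 = (x : ℝ) ^ 3 + k := by exact_mod_cast heq
    have hK : (1 : ℝ) ≤ |(k : ℝ)| := by
      have : (1 : ℤ) ≤ |k| := Int.one_le_abs hk
      exact_mod_cast this
    obtain ⟨K, hKd⟩ : ∃ K : ℝ, K = |(k : ℝ)| := ⟨_, rfl⟩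
    rw [← hKd] at hK hx ⊢
    have hK0 : 0 < K := by linarith
    obtain ⟨P, hP⟩ : ∃ P : ℝ, P = (4 : ℝ) ^ j - 12 := ⟨_, rfl⟩
    have hP0 : 0 < P := by
      have : (4 : ℝ) ^ 3 ≤ (4 : ℝ) ^ j := pow_le_pow_right₀ (by norm_num) hj
      rw [hP]; linarith
    rw [← hP] at hx ⊢
    obtain ⟨α, hα⟩ : ∃ α : ℝ, α = 1 / 3 + 4 / P + 2 * ε / 3 := ⟨_, rfl⟩
    rw [← hα] at hx
    have hα3 : 1 / 3 ≤ α := by
      rw [hα]
      have : 0 < 4 / P := by positivity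
      linarith
    constructor
    · refine hx.trans (mul_le_mul (by nlinarith) (Real.rpow_le_rpow_of_exponent_le hK ?_)
        (by positivity) (by positivity))
      rw [hα]; linarith
    · have hβ : 1 / 2 + 6 / P + ε = α * (3 / 2) := by rw [hα]; ring
      rw [hβ, Real.rpow_mul hK0.le]
      obtain ⟨T, hT⟩ : ∃ T, T = K ^ α := ⟨_, rfl⟩
      rw [← hT] at hx ⊢
      have hT0 : 0 < T := by rw [hT]; positivity
      have hKT : K ≤ T ^ 3 := by
        have e1 : T ^ 3 = K ^ (α * 3) := by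
          rw [hT, ← Real.rpow_natCast, ← Real.rpow_mul hK0.le]; norm_num
        rw [e1]
        calc K = K ^ (1 : ℝ) := (Real.rpow_one K).symm
          _ ≤ _ := Real.rpow_le_rpow_of_exponent_le hK (by linarith)
      have hy2 : (y : ℝ) ^ 2 ≤ ((C ^ 2 + 1) * T ^ (3 / 2 : ℝ)) ^ 2 := by
        have e1 : (T ^ (3 / 2 : ℝ)) ^ 2 = T ^ 3 := by
          rw [← Real.rpow_natCast, ← Real.rpow_mul hT0.le, ← Real.rpow_natCast]; norm_num
        rw [mul_pow, e1, heqR]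
        have h1 : (x : ℝ) ^ 3 ≤ (C * T) ^ 3 :=
          (le_abs_self _).trans (by rw [abs_pow]; exact pow_le_pow_left₀ (abs_nonneg _) hx 3)
        have h2 : (k : ℝ) ≤ T ^ 3 := (le_abs_self _).trans (by rw [← hKd]; exact hKT)
        have h3 : (C * T) ^ 3 + T ^ 3 ≤ (C ^ 2 + 1) ^ 2 * T ^ 3 := by
          have hC3 : C ^ 3 + 1 ≤ (C ^ 2 + 1) ^ 2 := by
            have h4 : C ^ 3 ≤ C ^ 4 := pow_le_pow_right₀ hC (by norm_num)
            nlinarith [sq_nonneg C]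
          calc (C * T) ^ 3 + T ^ 3 = (C ^ 3 + 1) * T ^ 3 := by ring
            _ ≤ _ := mul_le_mul_of_nonneg_right hC3 (by positivity)
        linarith
      have := sq_le_sq.1 hy2
      rwa [abs_of_pos (by positivity : 0 < (C ^ 2 + 1) * T ^ (3 / 2 : ℝ))] at this
  · intro j hj
    obtain ⟨i, rfl⟩ : ∃ i, j = i + 2 := ⟨j - 2, by omega⟩
    obtain ⟨c, hc, h⟩ := Pool.Agent.K7.H71.Hall.lower i
    obtain ⟨P, hP⟩ : ∃ P : ℝ, P = (4 : ℝ) ^ (i + 2) - 10 := ⟨_, rfl⟩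
    have hP0 : 0 < P := by
      have : (4 : ℝ) ^ 2 ≤ (4 : ℝ) ^ (i + 2) := pow_le_pow_right₀ (by norm_num) (by omega)
      rw [hP]; linarith
    rw [← hP] at h ⊢
    obtain ⟨c', hc'⟩ : ∃ c', c' = √(c ^ 3 / 2) := ⟨_, rfl⟩
    have hc'0 : 0 < c' := by rw [hc']; positivity
    have hc'2 : c' ^ 2 = c ^ 3 / 2 := by rw [hc']; exact Real.sq_sqrt (by positivity)
    refine ⟨min c c', lt_min hc hc'0, ?_⟩
    intro N
    obtain ⟨k, x, y, hN, hk, ⟨Q, hns, hQ⟩, hx⟩ := h (max N ((2 / c ^ 3) ^ (P / 12)))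
    have hkR : (1 : ℝ) ≤ k := by exact_mod_cast hk
    have hk0 : (0 : ℝ) < k := by linarith
    refine ⟨k, x, y, (le_max_left _ _).trans hN, hk, ⟨Q, hns, hQ⟩, ?_, ?_⟩
    · exact (mul_le_mul_of_nonneg_right (min_le_left _ _) (by positivity)).trans hx
    · have heq := Pool.Agent.K7.H71.Hall.Cv_eq k hns
      have heqR : (y : ℝ) ^ 2 = (x : ℝ) ^ 3 + k := by exact_mod_cast heq
      have hbig : 2 / c ^ 3 ≤ (k : ℝ) ^ (12 / P) := by
        have h1 : (2 / c ^ 3) ^ (P / 12) ≤ (k : ℝ) := (le_max_right _ _).trans hN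
        have h2 := Real.rpow_le_rpow (by positivity) h1 (by positivity : 0 ≤ 12 / P)
        rwa [← Real.rpow_mul (by positivity), show P / 12 * (12 / P) = 1 by field_simp,
          Real.rpow_one] at h2
      have hx3 : c ^ 3 * (k * (k : ℝ) ^ (12 / P)) ≤ |(x : ℝ)| ^ 3 := by
        have h1 := pow_le_pow_left₀ (by positivity) hx 3
        have e1 : (c * (k : ℝ) ^ (1 / 3 + 4 / P)) ^ 3 = c ^ 3 * (k * (k : ℝ) ^ (12 / P)) := by
          have e2 : ((k : ℝ) ^ (1 / 3 + 4 / P)) ^ 3 = k * (k : ℝ) ^ (12 / P) := by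
            rw [← Real.rpow_natCast, ← Real.rpow_mul hk0.le]
            have e3 : (1 / 3 + 4 / P) * ((3 : ℕ) : ℝ) = 1 + 12 / P := by push_cast; ring
            rw [e3, Real.rpow_add hk0, Real.rpow_one]
          rw [mul_pow, e2]
        rwa [e1] at h1
      have hxy : |(x : ℝ)| ^ 3 ≤ (y : ℝ) ^ 2 + k := by
        rcases le_total 0 (x : ℝ) with h0 | h0
        · rw [abs_of_nonneg h0, heqR]; linarith
        · rw [abs_of_nonpos h0]
          have : (-(x : ℝ)) ^ 3 = k - y ^ 2 := by rw [heqR]; ring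
          rw [this]
          nlinarith [sq_nonneg (y : ℝ)]
      have hk2 : (k : ℝ) ≤ c ^ 3 / 2 * (k * (k : ℝ) ^ (12 / P)) := by
        have h1 : 1 ≤ c ^ 3 / 2 * (k : ℝ) ^ (12 / P) := by
          rw [div_le_iff₀ (by positivity)] at hbig
          linarith
        nlinarith
      have hy2 : (c' * (k : ℝ) ^ (1 / 2 + 6 / P)) ^ 2 ≤ (y : ℝ) ^ 2 := by
        have e1 : ((k : ℝ) ^ (1 / 2 + 6 / P)) ^ 2 = k * (k : ℝ) ^ (12 / P) := by
          rw [← Real.rpow_natCast, ← Real.rpow_mul hk0.le]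
          have e3 : (1 / 2 + 6 / P) * ((2 : ℕ) : ℝ) = 1 + 12 / P := by push_cast; ring
          rw [e3, Real.rpow_add hk0, Real.rpow_one]
        rw [mul_pow, e1, hc'2]
        linarith
      have h1 := sq_le_sq.1 hy2
      rw [abs_of_pos (by positivity : 0 < c' * (k : ℝ) ^ (1 / 2 + 6 / P))] at h1
      exact (mul_le_mul_of_nonneg_right (min_le_right _ _) (by positivity)).trans h1

end Pool.Agent.Results.MP_f2148a_nt.HighlyDivisiblePoints
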