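import Pool.Agent.Results.MP_f2148a_nt.AlmostAllK
import Pool.Agent.K7.H33.Hall.Cor

/-!
# Hall's conjecture for almost all `k`, with rational points, twists and small coefficients

The starting file `AlmostAllK` says that for all but `O(K ^ (99 / 100))` of the integers `k` with
`0 < |k| ≤ K` Mordell's equation `y ^ 2 = x ^ 3 + k` has no integral solution with
`|x| ≤ exp (K ^ (1 / 10000))`. Here the same is proved for all but `O(K ^ (99 / 100 + 9 c))` of the
integers `k`, `0 < |k| ≤ K`, for ALL the following equations at the same time, where the coefficients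
are at most `B K ^ c` (so that there is something to prove for `c < 1 / 900`):

1. `a y ^ 2 = b x ^ 3 + e k`;
2. `y ^ 2 = x ^ 3 + e k` in RATIONAL numbers `x`, `y` with a denominator of `x` at most
   `(B K ^ c / |e|) ^ (1 / 3)`: the numerator of `x` is larger than `exp (K ^ (1 / 10000))`;
3. `Δ(W) = e k` for Weierstrass equations `W` with integral coefficients: `|c₄(W)|` is larger than
   `exp (K ^ (1 / 10000))`;
4. `discr P = e k` for integral binary cubic forms `P = a X ^ 3 + b X ^ 2 Y + c X Y ^ 2 + d Y ^ 3` with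
   `a ≠ 0` and `|e| a ^ 2 ≤ B K ^ c`: `|b ^ 2 - 3 a c|` is larger than `exp (K ^ (1 / 10000))`; for
   instance (`a = 1`, `e = 1`) `k` is not the discriminant of a monic integral cubic polynomial
   `X ^ 3 + b X ^ 2 + c X + d` with `|b ^ 2 - 3 c| ≤ exp (K ^ (1 / 10000))`.

Proof: `a y ^ 2 = b x ^ 3 + e k` gives an integral point `(a b x, a ^ 2 b y)` of Mordell's equation
for `a ^ 3 b ^ 2 e k`; the coefficients `(a, b, e)` are few, and the starting theorem with
`K' = R ^ 6 K`, `R = 1728 B K ^ c`, saves more than is lost in the height.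
-/

set_option autoImplicit false

namespace Pool.Agent.Results.MP_f2148a_nt.SmallCoefficients

open Pool.Agent.K7.H33.Hall

/-- Let `c ≥ 0` and `B ≥ 1`. There is `M` such that for every `K ≥ 1` all integers `k` with
`0 < |k| ≤ K`, outside a finite set `E` of at most `M K ^ (99 / 100 + 9 c)` integers, have the
properties 1, 2, 3, 4 described above. -/
theorem result (c B : ℝ) (hc : 0 ≤ c) (hB : 1 ≤ B) : ∃ M : ℝ, ∀ K : ℝ, 1 ≤ K →
    ∃ E : Set ℤ, E.Finite ∧ (E.ncard : ℝ) ≤ M * K ^ (99 / 100 + 9 * c) ∧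
      ∀ k : ℤ, k ≠ 0 → |(k : ℝ)| ≤ K → k ∉ E →
        (∀ a b e x y : ℤ, a ≠ 0 → b ≠ 0 → e ≠ 0 → |(a : ℝ)| ≤ B * K ^ c → |(b : ℝ)| ≤ B * K ^ c →
          |(e : ℝ)| ≤ B * K ^ c → a * y ^ 2 = b * x ^ 3 + e * k →
          Real.exp (K ^ ((1 : ℝ) / 10000)) < |(x : ℝ)|) ∧
        (∀ (e : ℤ) (x y : ℚ), e ≠ 0 → |(e : ℝ)| * (x.den : ℝ) ^ 3 ≤ B * K ^ c →
          y ^ 2 = x ^ 3 + e * k → Real.exp (K ^ ((1 : ℝ) / 10000)) < |(x.num : ℝ)|) ∧
        (∀ (e : ℤ) (W : WeierstrassCurve ℤ), e ≠ 0 → |(e : ℝ)| ≤ B * K ^ c → W.Δ = e * k →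
          Real.exp (K ^ ((1 : ℝ) / 10000)) < |(W.c₄ : ℝ)|) ∧
        (∀ (e : ℤ) (P : Cubic ℤ), e ≠ 0 → P.a ≠ 0 → |(e : ℝ)| * (P.a : ℝ) ^ 2 ≤ B * K ^ c →
          P.discr = e * k →
          Real.exp (K ^ ((1 : ℝ) / 10000)) < |((P.b ^ 2 - 3 * P.a * P.c : ℤ) : ℝ)|) := by
  have h0 : Almost ((1 : ℝ) / 10000) ((99 : ℝ) / 100) :=
    Pool.Agent.Results.MP_f2148a_nt.AlmostAllK.result
  obtain ⟨M, hM⟩ := count (by norm_num) (by norm_num) h0 hc (B := 1728 * B) (by linarith)
  refine ⟨|M|, fun K hK => ?_⟩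
  have hK0 : 0 < K := by linarith
  have hKc : 1 ≤ K ^ c := Real.one_le_rpow hK hc
  have hR : 1 ≤ B * K ^ c := one_le_mul_of_one_le_of_one_le hB hKc
  have hRR : B * K ^ c ≤ 1728 * B * K ^ c := by nlinarith
  have h1R : (1728 : ℝ) ≤ 1728 * B * K ^ c := by nlinarith
  refine ⟨Ex3 (1 / 10000) K (1728 * B * K ^ c), (abs_finite K).subset fun k hk => hk.2.1, ?_, ?_⟩
  · refine (hM K hK).trans ?_
    calc M * K ^ ((99 : ℝ) / 100 + (3 + 6 * (99 / 100)) * c)
        ≤ |M| * K ^ ((99 : ℝ) / 100 + (3 + 6 * (99 / 100)) * c) :=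
          mul_le_mul_of_nonneg_right (le_abs_self M) (by positivity)
      _ ≤ |M| * K ^ (99 / 100 + 9 * c) := by
          apply mul_le_mul_of_nonneg_left _ (abs_nonneg M)
          apply Real.rpow_le_rpow_of_exponent_le hK
          linarith
  · intro k hk hkK hkE
    -- the general principle
    have key : ∀ a b e x y : ℤ, a ≠ 0 → b ≠ 0 → e ≠ 0 → |(a : ℝ)| ≤ 1728 * B * K ^ c →
        |(b : ℝ)| ≤ 1728 * B * K ^ c → |(e : ℝ)| ≤ 1728 * B * K ^ c →
        a * y ^ 2 = b * x ^ 3 + e * k → Real.exp (K ^ ((1 : ℝ) / 10000)) < |(x : ℝ)| := by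
      intro a b e x y ha hb he haR hbR heR heq
      by_contra hcon
      rw [not_lt] at hcon
      exact hkE ⟨hk, hkK, a, b, e, x, y, ha, hb, he, haR, hbR, heR, heq, hcon⟩
    refine ⟨?_, ?_, ?_, ?_⟩
    · intro a b e x y ha hb he haR hbR heR heq
      exact key a b e x y ha hb he (haR.trans hRR) (hbR.trans hRR) (heR.trans hRR) heq
    · intro e x y he heR heq
      obtain ⟨v, hv⟩ := rat_point (x := x) (y := y) (m := e * k) (by push_cast; exact heq)
      have hd : (x.den : ℤ) ≠ 0 := by exact_mod_cast x.den_ne_zero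
      refine key 1 1 (e * (x.den : ℤ) ^ 3) x.num v one_ne_zero one_ne_zero (by positivity) ?_ ?_ ?_ ?_
      · push_cast
        rw [abs_one]
        linarith
      · push_cast
        rw [abs_one]
        linarith
      · push_cast
        rw [abs_mul, abs_of_nonneg (a := (x.den : ℝ) ^ 3) (by positivity)]
        exact heR.trans hRR
      · rw [one_mul, one_mul, hv]
        ring
    · intro e W he heR hW
      have h1 := W.c_relation
      rw [hW] at h1
      refine key 1 1 (-1728 * e) W.c₄ W.c₆ one_ne_zero one_ne_zero (by positivity) ?_ ?_ ?_ ?_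
      · push_cast
        rw [abs_one]
        linarith
      · push_cast
        rw [abs_one]
        linarith
      · push_cast
        rw [abs_mul]
        norm_num
        nlinarith [abs_nonneg (e : ℝ)]
      · linarith
    · intro e P he ha heR hP
      have h1 := cubic_cov P
      rw [hP] at h1
      refine key 1 4 (-27 * P.a ^ 2 * e) (P.b ^ 2 - 3 * P.a * P.c)
        (2 * P.b ^ 3 - 9 * P.a * P.b * P.c + 27 * P.a ^ 2 * P.d) one_ne_zero (by norm_num)
        (by positivity) ?_ ?_ ?_ ?_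
      · push_cast
        rw [abs_one]
        linarith
      · push_cast
        rw [abs_of_nonneg (by norm_num : (0 : ℝ) ≤ 4)]
        linarith
      · push_cast
        rw [abs_mul, abs_mul, abs_of_nonneg (a := (P.a : ℝ) ^ 2) (by positivity)]
        have h2 : |(-27 : ℝ)| = 27 := by norm_num
        rw [h2]
        nlinarith [mul_nonneg (abs_nonneg (e : ℝ)) (sq_nonneg (P.a : ℝ))]
      · rw [one_mul, h1]
        ring

end Pool.Agent.Results.MP_f2148a_nt.SmallCoefficients
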