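import Mathlib
import Pool.Agent.K7.H59.HL.E

/-!
# Hall's conjecture for the integral points which are images under the isogeny of degree three
# over a fixed number field

Let `E_k : y² = x³ + k`. There is an isogeny of degree three `E_{-27k} → E_k`,
`(X, Y) ↦ ((X³ - 108 k) / (9 X²), Y (X³ + 216 k) / (27 X³))`. An integral point `(x, y)` of `E_k` is
the image of a point over a field `K` if and only if the cubic polynomial `T³ - 3 x T + 2 y`, of
discriminant `-108 k`, has a root in `K`. All the points of `3 E_k(K)` are such images.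

Let `K` be a number field. For all integral points of all the curves `E_k` which are images of points
over `K`, `|x| ≤ C |k| ^ (1 + ε)` and `|y| ≤ C |k| ^ (3 / 2 + ε)`, with `C = C(K, ε)`; for `K = ℚ`,
`|x| ≤ 2 |k|` and `y² ≤ 9 |k|³`. The exponents are best possible, for all `K`, and already for the
points of `3 E_k(ℚ)`. (Hall's conjecture allows the exponents `2` and `3`; the starting result
`DoubledPoints` has the exponents `4 / 3` and `2` for the points divisible by two over `K`.)

Proof. If the cubic has a rational root `t`, then `t` is an integer, and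
`4 k = (t² - 4 x) (x - t²)²` gives the bound. Otherwise the cubic field generated by a root is one of
the finitely many cubic subfields `L` of `K`. The largest real root `t` satisfies `t² ≥ 3 x`, and the
square of the difference of the two other roots is `12 x - 3 t²`, of absolute value at most
`3 |k| / x²`. This difference is a linear form in two integers of size `O(√x)` with coefficients
which depend only on `L` and whose ratio is an irrational number in a real embedding of `L`; it is
bounded below by Roth's theorem.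
-/

set_option autoImplicit false

namespace Pool.Agent.Results.MP_f2148a_nt.ThreeIsogenyImages

/-- The curve `E_k : y ^ 2 = x ^ 3 + k` over the field `K`. -/
def Mordell (K : Type) [Field K] (k : ℤ) : WeierstrassCurve.Affine K := ⟨0, 0, 0, 0, k⟩

/-- The point `(x, y)` with integral coordinates is the image, under the isogeny
`(X, Y) ↦ ((X ^ 3 - 108 k) / (9 X ^ 2), Y (X ^ 3 + 216 k) / (27 X ^ 3))`, of a point `(X, Y)` with
coordinates in `K` of the curve `Y ^ 2 = X ^ 3 - 27 k`. -/
def IsogenyImage (K : Type) [Field K] (k x y : ℤ) : Prop :=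
  ∃ X Y : K, X ≠ 0 ∧ Y ^ 2 = X ^ 3 - 27 * k ∧ 9 * X ^ 2 * x = X ^ 3 - 108 * k ∧
    27 * X ^ 3 * y = Y * (X ^ 3 + 216 * k)

/-- The point `(x, y)` with integral coordinates is a point of `E_k` which is equal to `3 Q` for a
point `Q` of `E_k` over `K`, with respect to the group law of the curve. -/
def IsTriple (K : Type) [Field K] [DecidableEq K] (k x y : ℤ) : Prop :=
  ∃ (Q : (Mordell K k).Point) (h : (Mordell K k).Nonsingular (x : K) (y : K)),
    (3 : ℕ) • Q = WeierstrassCurve.Affine.Point.some (x : K) (y : K) h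

/-- (1) For every number field `K` and `ε > 0` there is `C` such that all integral points of all the
curves `y ^ 2 = x ^ 3 + k`, `k ≠ 0`, which are images of points over `K` under the isogeny of degree
three satisfy `|x| ≤ C |k| ^ (1 + ε)` and `|y| ≤ C |k| ^ (3 / 2 + ε)`. (2) For `K = ℚ` they satisfy
`|x| ≤ 2 |k|` and `y ^ 2 ≤ 9 |k| ^ 3`. (3) A point is an image of a point over `K` if and only if
`T ^ 3 - 3 x T + 2 y` has a root in `K`. (4) This is so if it is divisible by three in `E_k(K)`.
(5) There are points in `3 E_k(ℚ)` with arbitrarily large `|x|`, `|k| ≤ |x|` and `|k| ^ 3 ≤ y ^ 2`. -/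
theorem result :
    (∀ (K : Type) [Field K] [NumberField K] (ε : ℝ), 0 < ε → ∃ C : ℝ, ∀ k x y : ℤ, k ≠ 0 →
      y ^ 2 = x ^ 3 + k → IsogenyImage K k x y →
      |(x : ℝ)| ≤ C * |(k : ℝ)| ^ (1 + ε) ∧ |(y : ℝ)| ≤ C * |(k : ℝ)| ^ (3 / 2 + ε)) ∧
    (∀ k x y : ℤ, k ≠ 0 → y ^ 2 = x ^ 3 + k → IsogenyImage ℚ k x y →
      |x| ≤ 2 * |k| ∧ y ^ 2 ≤ 9 * |k| ^ 3) ∧
    (∀ (K : Type) [Field K] [NumberField K] (k x y : ℤ), k ≠ 0 → y ^ 2 = x ^ 3 + k →
      (IsogenyImage K k x y ↔ ∃ t : K, t ^ 3 - 3 * x * t + 2 * y = 0)) ∧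
    (∀ (K : Type) [Field K] [NumberField K] [DecidableEq K] (k x y : ℤ), k ≠ 0 →
      IsTriple K k x y → y ^ 2 = x ^ 3 + k ∧ IsogenyImage K k x y) ∧
    (∀ N : ℤ, ∃ k x y : ℤ, k ≠ 0 ∧ N ≤ |x| ∧ IsTriple ℚ k x y ∧ |k| ≤ |x| ∧ |k| ^ 3 ≤ y ^ 2) := by
  refine ⟨?_, ?_, ?_, ?_, ?_⟩
  · intro K _ _ ε hε
    obtain ⟨C, hC⟩ := Pool.Agent.K7.H59.HL.xy_bound K ε hε
    exact ⟨C, fun k x y hk hE h => hC k x y hk hE
      (Pool.Agent.K7.H59.HL.Image.root (k := k) h)⟩
  · intro k x y hk hE h
    obtain ⟨t, ht⟩ := Pool.Agent.K7.H59.HL.Image.root (K := ℚ) (k := k) h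
    have h1 := Pool.Agent.K7.H59.HL.rat_root hk hE ht
    exact ⟨h1, Pool.Agent.K7.H59.HL.y_bound hk hE h1⟩
  · intro K _ _ k x y hk hE
    exact Pool.Agent.K7.H59.HL.image_iff hk hE
  · intro K _ _ _ k x y hk h
    obtain ⟨Q, hns, hQ⟩ := h
    have h1 := Pool.Agent.K7.H59.HL.Cv_eq (K := K) k hns
    refine ⟨by exact_mod_cast h1, ?_⟩
    exact Pool.Agent.K7.H59.HL.triple_image hk Q hns hQ
  · intro N
    exact Pool.Agent.K7.H59.HL.examples N

end Pool.Agent.Results.MP_f2148a_nt.ThreeIsogenyImages
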