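import Pool.Agent.Results.MP_f2148a_nt.SmallCoefficients
import Pool.Agent.Results.MP_f2148a_nt.SparseViolations
import Pool.Agent.R482.ST.Star

/-!
# Hall's conjecture for all `k` near the values of powers, orbits and other sequences

Let `f_n`, `n = 0, 1, 2, …`, be positive functions on `(a, ∞)`, `a ≥ 0`, such that `f_n(t) / t` is nondecreasing, and such
that the sequence `f_n(t)` has exponent of convergence at most `τ` for each `t > a`: for instance `f_n(t) = t ^ n` (`τ = 0`),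
the orbits `f_n(t) = g (g (⋯ g (t)))` of a map `g` with `g(t) > t` and `g(t) / t` nondecreasing (`τ = 0`), and
`f_n(t) = v_n t`. For all `α > a` outside a set `E` of small Hausdorff dimension and all but finitely many `n`, EVERY integer
`k` with `||k| - f_n(α)| ≤ c f_n(α) ^ θ` satisfies Hall's conjecture in a large range of solutions:

* for `θ < 1 / 100` Mordell's equation `y ^ 2 = x ^ 3 + k` has no integral solution at all with
  `|x| ≤ exp (|k| ^ (1 / 10000))`, the dimension of `E` is at most `(99 / 100 + τ) / (1 - θ)`; the same holds for the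
  rational solutions, for the equations `a y ^ 2 = b x ^ 3 + e k`, and for the elliptic curves and cubic polynomials
  with discriminant `e k`, with denominators and coefficients up to a small power of `|k|`;
* for `2 ≤ A < 10 / 3` and `θ < 5 / 6 - A / 4` all solutions with `|x| ≤ |k| ^ A` satisfy Hall's inequality
  `max (|x|, |y|) ≤ C |k| ^ 3` for every constant `C > 0`, the dimension of `E` is at most `(A / 4 + 1 / 6 + τ) / (1 - θ)`.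
-/

set_option autoImplicit false

namespace Pool.Agent.Results.MP_f2148a_nt.WindowsWithoutViolations

/-- the functions `f n` are positive on `(a, ∞)`, `a ≥ 0`, and `f n x / x` is nondecreasing there -/
def Starshaped (a : ℝ) (f : ℕ → ℝ → ℝ) : Prop :=
  0 ≤ a ∧ ∀ n : ℕ, ∀ x y : ℝ, a < x → x ≤ y → 0 < f n x ∧ f n x / x ≤ f n y / y

/-- for each `x > a` the exponent of convergence of the sequence `f n x` is at most `τ` -/
def ExpLe (a : ℝ) (f : ℕ → ℝ → ℝ) (τ : ℝ) : Prop :=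
  ∀ x : ℝ, a < x → ∀ t : ℝ, τ < t → Summable (fun n : ℕ => (f n x) ^ (-t))

/-- There are no solutions for `k` that are not exponentially large: (i) of `a y ^ 2 = b x ^ 3 + e k` for `a`, `b`, `e` at most
`B |k| ^ γ`; (ii) of `y ^ 2 = x ^ 3 + e k` in rational numbers, with `|e| (den x) ^ 3 ≤ B |k| ^ γ`; (iii) no Weierstrass
equations over the integers of discriminant `e k`, `|e| ≤ B |k| ^ γ`; (iv) no cubic polynomials with leading coefficient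
`a ≠ 0` and discriminant `e k`, `|e| a ^ 2 ≤ B |k| ^ γ`. -/
def Clean (B γ : ℝ) (k : ℤ) : Prop :=
  (∀ a b e x y : ℤ, a ≠ 0 → b ≠ 0 → e ≠ 0 → |(a : ℝ)| ≤ B * |(k : ℝ)| ^ γ → |(b : ℝ)| ≤ B * |(k : ℝ)| ^ γ →
    |(e : ℝ)| ≤ B * |(k : ℝ)| ^ γ → a * y ^ 2 = b * x ^ 3 + e * k →
      Real.exp (|(k : ℝ)| ^ ((1 : ℝ) / 10000)) < |(x : ℝ)|) ∧
  (∀ (e : ℤ) (x y : ℚ), e ≠ 0 → |(e : ℝ)| * (x.den : ℝ) ^ 3 ≤ B * |(k : ℝ)| ^ γ →
    y ^ 2 = x ^ 3 + e * k → Real.exp (|(k : ℝ)| ^ ((1 : ℝ) / 10000)) < |(x.num : ℝ)|) ∧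
  (∀ (e : ℤ) (W : WeierstrassCurve ℤ), e ≠ 0 → |(e : ℝ)| ≤ B * |(k : ℝ)| ^ γ → W.Δ = e * k →
    Real.exp (|(k : ℝ)| ^ ((1 : ℝ) / 10000)) < |(W.c₄ : ℝ)|) ∧
  (∀ (e : ℤ) (P : Cubic ℤ), e ≠ 0 → P.a ≠ 0 → |(e : ℝ)| * (P.a : ℝ) ^ 2 ≤ B * |(k : ℝ)| ^ γ → P.discr = e * k →
    Real.exp (|(k : ℝ)| ^ ((1 : ℝ) / 10000)) < |((P.b ^ 2 - 3 * P.a * P.c : ℤ) : ℝ)|)

/-- the `k` for which there is a solution that is not exponentially large -/
def S₁ (B γ : ℝ) : Set ℤ := {k | k ≠ 0 ∧ ¬ Clean B γ k}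

/-- the `k` for which there is a solution violating Hall's inequality with `|x| ≤ |k| ^ A` -/
def S₂ (A C : ℝ) : Set ℤ := {k | k ≠ 0 ∧ ∃ x y : ℤ, y ^ 2 = x ^ 3 + k ∧
  C * |(k : ℝ)| ^ 3 < max |(x : ℝ)| |(y : ℝ)| ∧ |(x : ℝ)| ≤ |(k : ℝ)| ^ A}

theorem finite_le (S : Set ℤ) (K : ℝ) : {k | k ∈ S ∧ |(k : ℝ)| ≤ K}.Finite := by
  refine (Set.finite_Icc (-⌊K⌋) ⌊K⌋).subset ?_
  rintro k ⟨-, h⟩
  rw [abs_le] at h
  refine ⟨?_, Int.le_floor.2 h.2⟩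
  have : -k ≤ ⌊K⌋ := Int.le_floor.2 (by push_cast; linarith [h.1])
  omega

theorem count₁ (B γ : ℝ) (hγ : 0 ≤ γ) (hB : 1 ≤ B) (ε : ℝ) (hε : 0 < ε) : ∃ M : ℝ, ∀ K : ℝ, 1 ≤ K →
    {k | k ∈ S₁ B γ ∧ |(k : ℝ)| ≤ K}.Finite ∧
      ({k | k ∈ S₁ B γ ∧ |(k : ℝ)| ≤ K}.ncard : ℝ) ≤ M * K ^ (((99 : ℝ) / 100 + 9 * γ) + ε) := by
  obtain ⟨M, hM⟩ := Pool.Agent.Results.MP_f2148a_nt.SmallCoefficients.result γ B hγ hB
  refine ⟨|M|, fun K hK => ⟨finite_le _ _, ?_⟩⟩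
  have hK0 : (0 : ℝ) < K := by linarith
  obtain ⟨E, hE1, hE2, hE3⟩ := hM K hK
  have hsub : {k | k ∈ S₁ B γ ∧ |(k : ℝ)| ≤ K} ⊆ E := by
    rintro k ⟨⟨h0, h1⟩, h2⟩
    by_contra hkE
    apply h1
    obtain ⟨g1, g2, g3, g4⟩ := hE3 k h0 h2 hkE
    have hle : B * |(k : ℝ)| ^ γ ≤ B * K ^ γ :=
      mul_le_mul_of_nonneg_left (Real.rpow_le_rpow (abs_nonneg _) h2 hγ) (by linarith)
    have hexp : Real.exp (|(k : ℝ)| ^ ((1 : ℝ) / 10000)) ≤ Real.exp (K ^ ((1 : ℝ) / 10000)) :=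
      Real.exp_le_exp.2 (Real.rpow_le_rpow (abs_nonneg _) h2 (by norm_num))
    refine ⟨?_, ?_, ?_, ?_⟩
    · intro a b e x y ha hb he haR hbR heR heq
      exact hexp.trans_lt (g1 a b e x y ha hb he (haR.trans hle) (hbR.trans hle) (heR.trans hle) heq)
    · intro e x y he heR heq
      exact hexp.trans_lt (g2 e x y he (heR.trans hle) heq)
    · intro e W he heR hW
      exact hexp.trans_lt (g3 e W he (heR.trans hle) hW)
    · intro e P he ha heR hP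
      exact hexp.trans_lt (g4 e P he ha (heR.trans hle) hP)
  have h1 : ({k | k ∈ S₁ B γ ∧ |(k : ℝ)| ≤ K}.ncard : ℝ) ≤ (E.ncard : ℝ) := by
    exact_mod_cast Set.ncard_le_ncard hsub hE1
  calc _ ≤ M * K ^ (99 / 100 + 9 * γ) := h1.trans hE2
    _ ≤ |M| * K ^ (99 / 100 + 9 * γ) := mul_le_mul_of_nonneg_right (le_abs_self M) (by positivity)
    _ ≤ |M| * K ^ (((99 : ℝ) / 100 + 9 * γ) + ε) :=
        mul_le_mul_of_nonneg_left (Real.rpow_le_rpow_of_exponent_le hK (by linarith)) (abs_nonneg M)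

theorem count₂ (A C : ℝ) (hA : 2 ≤ A) (hC : 0 < C) (ε : ℝ) (hε : 0 < ε) : ∃ M : ℝ, ∀ K : ℝ, 1 ≤ K →
    {k | k ∈ S₂ A C ∧ |(k : ℝ)| ≤ K}.Finite ∧
      ({k | k ∈ S₂ A C ∧ |(k : ℝ)| ≤ K}.ncard : ℝ) ≤ M * K ^ ((A / 4 + 1 / 6) + ε) := by
  obtain ⟨M, hM⟩ := Pool.Agent.Results.MP_f2148a_nt.SparseViolations.result C A ε hC hA hε
  refine ⟨M, fun K hK => ⟨finite_le _ _, ?_⟩⟩
  have hsub : {k | k ∈ S₂ A C ∧ |(k : ℝ)| ≤ K} ⊆ {k : ℤ | k ≠ 0 ∧ |(k : ℝ)| ≤ K ∧ ∃ x y : ℤ,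
      y ^ 2 = x ^ 3 + k ∧ C * |(k : ℝ)| ^ 3 < max |(x : ℝ)| |(y : ℝ)| ∧ |(x : ℝ)| ≤ K ^ A} := by
    rintro k ⟨⟨h0, x, y, h1, h2, h3⟩, h4⟩
    exact ⟨h0, h4, x, y, h1, h2, h3.trans (Real.rpow_le_rpow (abs_nonneg _) h4 (by linarith))⟩
  have hfin : {k : ℤ | k ≠ 0 ∧ |(k : ℝ)| ≤ K ∧ ∃ x y : ℤ,
      y ^ 2 = x ^ 3 + k ∧ C * |(k : ℝ)| ^ 3 < max |(x : ℝ)| |(y : ℝ)| ∧ |(x : ℝ)| ≤ K ^ A}.Finite := by
    refine (finite_le Set.univ K).subset ?_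
    rintro k ⟨-, h, -⟩
    exact ⟨trivial, h⟩
  refine le_trans ?_ (hM K hK)
  exact_mod_cast Set.ncard_le_ncard hsub hfin

/-- **Theorem.** Let `f` be starshaped functions on `(a, ∞)` of exponent of convergence at most `τ ≥ 0` and `θ < 1`.

(1) Let `γ ≥ 0`. There is a set `E` of Hausdorff dimension at most `(99 / 100 + 9 γ + τ) / (1 - θ)` such that for each `α > a`
outside `E` and all `c`, `B`, for all but finitely many `n` and EVERY integer `k ≠ 0` with `||k| - f_n(α)| ≤ c f_n(α) ^ θ`, all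
integral solutions of `a y ^ 2 = b x ^ 3 + e k` with `a`, `b`, `e` nonzero of absolute value at most `B |k| ^ γ` satisfy
`|x| > exp (|k| ^ (1 / 10000))`, and so on (`Clean B γ k`). For instance this holds for the integral solutions of
`y ^ 2 = x ^ 3 + k` (`γ = 0`).

(2) Let `A ≥ 2`. There is a set `E` of Hausdorff dimension at most `(A / 4 + 1 / 6 + τ) / (1 - θ)` such that for each `α > a`
outside `E`, each `c` and each `C > 0`, for all but finitely many `n` and EVERY integer `k ≠ 0` with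
`||k| - f_n(α)| ≤ c f_n(α) ^ θ`, all integral solutions of `y ^ 2 = x ^ 3 + k` with `|x| ≤ |k| ^ A` satisfy
`max (|x|, |y|) ≤ C |k| ^ 3`.

(3) The functions `v_n x`, `v_n > 0`, are starshaped on `(0, ∞)`, of exponent `τ` if `v` has exponent of convergence at most
`τ`; the functions `x ^ (v_n)`, `v_n ≥ 1`, are starshaped on `(1, ∞)`, of exponent `0` if the sums of `exp (-t v_n)` converge
for `t > 0`; and the iterates of a map `g` with `g(x) > x` for `x > a` and `g(x) / x` nondecreasing are starshaped on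
`(a, ∞)`, of exponent `0`. -/
theorem result :
    (∀ (a : ℝ) (f : ℕ → ℝ → ℝ) (τ θ γ : ℝ), Starshaped a f → 0 ≤ τ → ExpLe a f τ → θ < 1 → 0 ≤ γ →
      ∃ E : Set ℝ, dimH E ≤ ENNReal.ofReal ((99 / 100 + 9 * γ + τ) / (1 - θ)) ∧
        ∀ α : ℝ, a < α → α ∉ E → ∀ c B : ℝ, ∃ n₀ : ℕ, ∀ n : ℕ, n₀ ≤ n → ∀ k : ℤ, k ≠ 0 →
          |(|(k : ℝ)| - f n α)| ≤ c * (f n α) ^ θ → Clean B γ k) ∧
    (∀ (a : ℝ) (f : ℕ → ℝ → ℝ) (τ θ A : ℝ), Starshaped a f → 0 ≤ τ → ExpLe a f τ → θ < 1 → 2 ≤ A →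
      ∃ E : Set ℝ, dimH E ≤ ENNReal.ofReal ((A / 4 + 1 / 6 + τ) / (1 - θ)) ∧
        ∀ α : ℝ, a < α → α ∉ E → ∀ c C : ℝ, 0 < C → ∃ n₀ : ℕ, ∀ n : ℕ, n₀ ≤ n → ∀ k : ℤ, k ≠ 0 →
          |(|(k : ℝ)| - f n α)| ≤ c * (f n α) ^ θ → ∀ x y : ℤ, y ^ 2 = x ^ 3 + k →
            |(x : ℝ)| ≤ |(k : ℝ)| ^ A → max |(x : ℝ)| |(y : ℝ)| ≤ C * |(k : ℝ)| ^ 3) ∧
    (∀ (v : ℕ → ℝ) (τ : ℝ), (∀ n, 0 < v n) → (∀ t : ℝ, τ < t → Summable (fun n : ℕ => (v n) ^ (-t))) →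
      Starshaped 0 (fun n x => v n * x) ∧ ExpLe 0 (fun n x => v n * x) τ) ∧
    (∀ v : ℕ → ℝ, (∀ n, 1 ≤ v n) → (∀ t : ℝ, 0 < t → Summable fun n : ℕ => Real.exp (-(t * v n))) →
      Starshaped 1 (fun n x => x ^ (v n)) ∧ ExpLe 1 (fun n x => x ^ (v n)) 0) ∧
    (∀ (a : ℝ) (g : ℝ → ℝ), 0 ≤ a → (∀ x y : ℝ, a < x → x ≤ y → g x / x ≤ g y / y) → (∀ x : ℝ, a < x → x < g x) →
      Starshaped a (fun n x => g^[n] x) ∧ ExpLe a (fun n x => g^[n] x) 0) := by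
  refine ⟨fun a f τ θ γ hf hτ hE hθ hγ => ?_, fun a f τ θ A hf hτ hE hθ hA => ?_,
    Pool.Agent.R482.ST.ex_mul, Pool.Agent.R482.ST.ex_pow, Pool.Agent.R482.ST.ex_orbit⟩
  · have key := fun m : ℕ => Pool.Agent.R482.ST.windows (S₁ ((m : ℝ) + 1) γ)
      (fun k : ℤ => |(k : ℝ)|) hf hτ hE (s := 99 / 100 + 9 * γ) (θ := θ) (by positivity) hθ
      (fun ε hε => count₁ ((m : ℝ) + 1) γ hγ (by linarith [(Nat.cast_nonneg m : (0 : ℝ) ≤ m)]) ε hε)
    choose E hE1 hE2 using key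
    refine ⟨⋃ m, E m, ?_, ?_⟩
    · rw [dimH_iUnion]
      exact iSup_le hE1
    · intro α hα hαE c B
      rw [Set.mem_iUnion] at hαE
      push Not at hαE
      obtain ⟨m, hm⟩ := exists_nat_ge B
      obtain ⟨n₀, hn⟩ := hE2 m α hα (hαE m) c
      refine ⟨n₀, fun n hn1 k hk hw => ?_⟩
      have h1 : Clean ((m : ℝ) + 1) γ k := by
        by_contra hcon
        exact absurd (hn n hn1 k ⟨hk, hcon⟩) (not_lt.2 hw)
      obtain ⟨g1, g2, g3, g4⟩ := h1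
      have hle : B * |(k : ℝ)| ^ γ ≤ ((m : ℝ) + 1) * |(k : ℝ)| ^ γ :=
        mul_le_mul_of_nonneg_right (by linarith) (by positivity)
      refine ⟨?_, ?_, ?_, ?_⟩
      · intro a b e x y ha hb he haR hbR heR heq
        exact g1 a b e x y ha hb he (haR.trans hle) (hbR.trans hle) (heR.trans hle) heq
      · intro e x y he heR heq
        exact g2 e x y he (heR.trans hle) heq
      · intro e W he heR hW
        exact g3 e W he (heR.trans hle) hW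
      · intro e P he ha heR hP
        exact g4 e P he ha (heR.trans hle) hP
  · have key := fun m : ℕ => Pool.Agent.R482.ST.windows (S₂ A (1 / ((m : ℝ) + 1)))
      (fun k : ℤ => |(k : ℝ)|) hf hτ hE (s := A / 4 + 1 / 6) (θ := θ) (by positivity) hθ
      (fun ε hε => count₂ A (1 / ((m : ℝ) + 1)) hA (by positivity) ε hε)
    choose E hE1 hE2 using key
    refine ⟨⋃ m, E m, ?_, ?_⟩
    · rw [dimH_iUnion]
      exact iSup_le hE1
    · intro α hα hαE c C hC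
      rw [Set.mem_iUnion] at hαE
      push Not at hαE
      obtain ⟨m, hm⟩ := exists_nat_one_div_lt hC
      obtain ⟨n₀, hn⟩ := hE2 m α hα (hαE m) c
      refine ⟨n₀, fun n hn1 k hk hw x y hxy hx => ?_⟩
      by_contra hcon
      push Not at hcon
      refine absurd (hn n hn1 k ⟨hk, x, y, hxy, ?_, hx⟩) (not_lt.2 hw)
      refine lt_of_le_of_lt ?_ hcon
      exact mul_le_mul_of_nonneg_right hm.le (by positivity)

end Pool.Agent.Results.MP_f2148a_nt.WindowsWithoutViolations
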